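import Pool.Agent.Lib.MP_d7cc8a_lc.Final

/-! Finite complete second-order theories and `I_0`-cardinals: no finite complete second-order
theory has a model whose cardinality is an `I_0`-cardinal, so that both questions on the
categoricity of such theories have a positive answer. -/

namespace Pool.Agent.Results.MP_d7cc8a_lc.IZeroCategorical

open FirstOrder Cardinal SOCat

universe u

/-- Let `lam` be an `I_0`-cardinal and let `T` be a finite complete second-order theory in a
finite vocabulary. Then `T` has no model of cardinality `lam`. Consequently, if `T` has a model
of cardinality `lam` then `T` is categorical, and categorical in the cardinality `lam`. -/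
theorem result {L : Language.{0, 0}} [Finite L.Symbols] (lam : Cardinal.{u}) (hlam : IsI0 lam)
    (T : Set (SOSentence L)) (hT : T.Finite) (hc : Complete.{u} T) :
    (¬ ∃ (M : Type u) (_ : Nonempty M) (_ : L.Structure M), IsModel T M ∧ #M = lam) ∧
      ((∃ (M : Type u) (_ : Nonempty M) (_ : L.Structure M), IsModel T M ∧ #M = lam) →
        Categorical.{u} T ∧ CategoricalIn T lam) := by
  have key : ¬ ∃ (M : Type u) (_ : Nonempty M) (_ : L.Structure M), IsModel T M ∧ #M = lam := by
    rintro ⟨M, _, _, hM, hcard⟩
    exact hlam.no_complete hT hc M hM hcard
  exact ⟨key, fun h => absurd h key⟩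

end Pool.Agent.Results.MP_d7cc8a_lc.IZeroCategorical
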